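import Pool.Agent.P.MP_a68a03_ag.Main

/-!
Boguslavsky's conjecture on the dim-type of dim-maximal intersections of hypersurfaces.
-/

namespace Pool.Agent.Results.MP_a68a03_ag.Boguslavsky

/-- The dim-type of the projective variety `V(F_1, ..., F_r)` in projective `m`-space over the
field `L`.  Its irreducible components over `L` are the minimal primes over the ideal
`(F_1, ..., F_r)` other than the irrelevant ideal (which has height `m + 1`), and the codimension
of a component is the height of its prime.  Entry number `i` (counting from `0`) is the number of
components of codimension `i + 1`. -/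
noncomputable def dimType {L : Type*} [Field L] {m r : ℕ}
    (F : Fin r → MvPolynomial (Fin (m + 1)) L) : Fin m → ℕ :=
  fun i => {P ∈ (Ideal.span (Set.range F)).minimalPrimes | P.height = ((i : ℕ) + 1 : ℕ)}.ncard

/-- The set `Λ(d, m)` of all `(m + 1)`-tuples of natural numbers with sum `d`, listed in
descending lexicographic order. -/
noncomputable def lambdaList (d m : ℕ) : List (Lex (Fin (m + 1) → ℕ)) :=
  ((Finset.Nat.antidiagonalTuple (m + 1) d).map toLex.toEmbedding).sort (· ≥ ·)

/-- For a finite field `K` with more than `d` elements, the lexicographically largest dim-type of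
a variety cut out by `r` linearly independent forms of degree `d` over `K` is `(ν_1, ..., ν_m)`,
where `ν` is the `r`-th element of `Λ(d, m)`.  Components are counted over an arbitrary extension
field `L` of `K`; the case `L = K` is the conjecture as posed. -/
theorem result (K L : Type*) [Field K] [Fintype K] [Field L] [Algebra K L] (m d r : ℕ)
    (hm : 1 ≤ m) (hq : d < Fintype.card K) (hr1 : 1 ≤ r) (hr2 : r ≤ (m + d).choose d) :
    ∃ ν : Fin (m + 1) → ℕ, (lambdaList d m)[r - 1]? = some (toLex ν) ∧
      IsGreatest
        {α : Lex (Fin m → ℕ) | ∃ F : Fin r → MvPolynomial (Fin (m + 1)) K,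
          (∀ i, (F i).IsHomogeneous d) ∧ LinearIndependent K F ∧
          α = toLex (dimType fun i => MvPolynomial.map (algebraMap K L) (F i))}
        (toLex fun i : Fin m => ν i.castSucc) :=
  Pool.Agent.P.MP_a68a03_ag.main_theorem hm hq hr1 hr2

end Pool.Agent.Results.MP_a68a03_ag.Boguslavsky
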